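import Mathlib

set_option autoImplicit false

namespace Pool.Agent.T9h70.Box

open Finset

/-! ### colourings of relations -/

/-- the relation `D` can be coloured with `n` colours -/
def Col {V : Type} (D : V → V → Prop) (n : ℕ) : Prop :=
  ∃ c : V → ℕ, (∀ v, c v < n) ∧ ∀ x y, D x y → c x ≠ c y

theorem Col.prod {V : Type} {D E : V → V → Prop} {n m : ℕ} (hD : Col D n) (hE : Col E m) :
    Col (fun x y => D x y ∨ E x y) (n * m) := by
  obtain ⟨c, c1, c2⟩ := hD
  obtain ⟨e, e1, e2⟩ := hE
  refine ⟨fun v => c v * m + e v, fun v => ?_, fun x y h => ?_⟩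
  · have h1 := c1 v
    have h2 := e1 v
    calc c v * m + e v < c v * m + m := by omega
      _ = (c v + 1) * m := by ring
      _ ≤ n * m := Nat.mul_le_mul_right m h1
  · intro heq
    simp only at heq
    have hx := e1 x
    have hy := e1 y
    have hm : 0 < m := by omega
    have h1 : c x = c y := by
      have h3 : (c x * m + e x) / m = (c y * m + e y) / m := by rw [heq]
      rw [Nat.mul_comm (c x), Nat.mul_comm (c y), Nat.mul_add_div hm, Nat.mul_add_div hm,
        Nat.div_eq_of_lt hx, Nat.div_eq_of_lt hy] at h3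
      simpa using h3
    have h2 : e x = e y := by
      rw [h1] at heq
      omega
    rcases h with h | h
    · exact c2 x y h h1
    · exact e2 x y h h2

theorem Col.mono {V : Type} {D E : V → V → Prop} {n m : ℕ} (hD : Col D n)
    (h : ∀ x y, E x y → D x y) (hnm : n ≤ m) : Col E m := by
  obtain ⟨c, c1, c2⟩ := hD
  exact ⟨c, fun v => (c1 v).trans_le hnm, fun x y hxy => c2 x y (h x y hxy)⟩

/-- digraphs of bounded outdegree -/
theorem outdeg_color {V : Type} [DecidableEq V] (R : V → V → Prop) [DecidableRel R]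
    (hirr : ∀ a, ¬ R a a) (D : ℕ) : ∀ (n : ℕ) (s : Finset V), s.card = n →
    (∀ x ∈ s, (s.filter (R x)).card ≤ D) →
    ∃ κ : V → ℕ, (∀ x ∈ s, κ x < 2 * D + 1) ∧ ∀ x ∈ s, ∀ y ∈ s, R x y → κ x ≠ κ y := by
  intro n
  induction n with
  | zero =>
    intro s hs _
    rw [card_eq_zero] at hs
    subst hs
    exact ⟨fun _ => 0, by simp, by simp⟩
  | succ n ih =>
    intro s hs hdeg
    have hne : s.Nonempty := card_pos.1 (by omega)
    -- a vertex of small indegree
    obtain ⟨v, hv, hvin⟩ : ∃ v ∈ s, (s.filter (fun x => R x v)).card ≤ D := by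
      by_contra hcon
      push Not at hcon
      have h1 : ∑ v ∈ s, (s.filter (fun x => R x v)).card = ∑ x ∈ s, (s.filter (R x)).card := by
        simp_rw [card_filter]
        exact sum_comm
      have h2 : ∑ x ∈ s, (s.filter (R x)).card ≤ ∑ _x ∈ s, D := sum_le_sum hdeg
      have h3 : ∑ _v ∈ s, D < ∑ v ∈ s, (s.filter (fun x => R x v)).card :=
        sum_lt_sum_of_nonempty hne fun v hv => hcon v hv
      omega
    obtain ⟨κ, k1, k2⟩ := ih (s.erase v) (by rw [card_erase_of_mem hv]; omega) (by
      intro x hx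
      refine le_trans (card_le_card ?_) (hdeg x (mem_of_mem_erase hx))
      exact filter_subset_filter _ (erase_subset v s))
    -- forbidden colours
    set B : Finset ℕ := ((s.filter (R v)) ∪ (s.filter (fun x => R x v))).image κ with hB
    have hBc : B.card ≤ 2 * D := by
      refine card_image_le.trans ((card_union_le _ _).trans ?_)
      have := hdeg v hv
      omega
    obtain ⟨c, hc1, hc2⟩ : ∃ c ∈ range (2 * D + 1), c ∉ B := by
      by_contra hcon
      push Not at hcon
      have : range (2 * D + 1) ⊆ B := hcon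
      have := card_le_card this
      rw [card_range] at this
      omega
    refine ⟨fun x => if x = v then c else κ x, fun x hx => ?_, fun x hx y hy hxy => ?_⟩
    · simp only
      split_ifs with h
      · exact mem_range.1 hc1
      · exact k1 x (mem_erase.2 ⟨h, hx⟩)
    · simp only
      split_ifs with h1 h2 h2
      · subst h1; subst h2; exact absurd hxy (hirr _)
      · subst h1
        intro h
        exact hc2 (h ▸ mem_image_of_mem κ (mem_union_left _ (mem_filter.2 ⟨hy, hxy⟩)))
      · subst h2
        intro h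
        exact hc2 (h ▸ mem_image_of_mem κ (mem_union_right _ (mem_filter.2 ⟨hx, hxy⟩)))
      · exact k2 x (mem_erase.2 ⟨h1, hx⟩) y (mem_erase.2 ⟨h2, hy⟩) hxy

theorem col_outdeg {V : Type} [Fintype V] (R : V → V → Prop) (hirr : ∀ a, ¬ R a a) (D : ℕ)
    (h : ∀ x, {y | R x y}.ncard ≤ D) : Col R (2 * D + 1) := by
  classical
  obtain ⟨κ, k1, k2⟩ := outdeg_color R hirr D _ (univ : Finset V) rfl (by
    intro x _
    have := h x
    rw [Set.ncard_eq_toFinset_card'] at this
    convert this using 2
    ext y
    simp)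
  exact ⟨κ, fun v => k1 v (mem_univ v), fun x y hxy => k2 x (mem_univ x) y (mem_univ y) hxy⟩

/-- the members of `S` with few members above them -/
theorem few_top {V : Type} (S : Set V) (hS : S.Finite) (f : V → ℝ) (N : ℕ) (hN : 0 < N) :
    {z | z ∈ S ∧ {z' | z' ∈ S ∧ f z ≤ f z'}.ncard < N}.ncard < N := by
  classical
  set E := {z | z ∈ S ∧ {z' | z' ∈ S ∧ f z ≤ f z'}.ncard < N} with hE
  have hEf : E.Finite := hS.subset fun z hz => hz.1
  rcases E.eq_empty_or_nonempty with h | h
  · rw [h]; simpa using hN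
  · obtain ⟨z0, hz0, hmin⟩ := hEf.exists_minimalFor f E h
    refine lt_of_le_of_lt (Set.ncard_le_ncard ?_ (hS.subset fun z hz => hz.1)) hz0.2
    intro z hz
    refine ⟨hz.1, ?_⟩
    rcases le_total (f z0) (f z) with h1 | h1
    · exact h1
    · exact hmin hz h1

/-- the height function: if `H ⊆ D`, `D ∘ H ⊆ D` and `D` is contained in the adjacency of a graph of
clique number at most `k`, and in an order, then `H` can be coloured with `k` colours. -/
theorem col_height {V : Type} [Fintype V] (G : SimpleGraph V) (k : ℕ)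
    (hk : ∀ S : Finset V, G.IsClique (S : Set V) → S.card ≤ k) (e : V → ℕ)
    (D H : V → V → Prop) (h1 : ∀ x y, D x y → G.Adj x y) (h2 : ∀ x y, D x y → e x < e y)
    (h3 : ∀ x y, H x y → D x y) (h4 : ∀ x y z, D x y → H y z → D x z) : Col H k := by
  classical
  let P : V → ℕ → Prop := fun v n => ∃ S : Finset V, S.card = n + 1 ∧ v ∈ S ∧
    G.IsClique (S : Set V) ∧ ∀ s ∈ S, s ≠ v → D s v
  have hP0 : ∀ v, P v 0 := fun v => ⟨{v}, by simp, by simp, by simp, by simp⟩
  have hPk : ∀ v n, P v n → n < k := by
    rintro v n ⟨S, hS, -, hc, -⟩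
    have := hk S hc
    omega
  let h : V → ℕ := fun v => Nat.findGreatest (P v) k
  have hh : ∀ v, P v (h v) := fun v => Nat.findGreatest_spec (Nat.zero_le k) (hP0 v)
  refine ⟨h, fun v => hPk v _ (hh v), fun x y hxy => ?_⟩
  obtain ⟨S, hS, hxS, hc, hD⟩ := hh x
  have hall : ∀ s ∈ S, D s y := by
    intro s hs
    rcases eq_or_ne s x with rfl | hne
    · exact h3 _ _ hxy
    · exact h4 s x y (hD s hs hne) hxy
  have hyS : y ∉ S := fun hy => lt_irrefl _ (h2 y y (hall y hy))
  have hPy : P y (h x + 1) := by
    refine ⟨insert y S, by rw [card_insert_of_notMem hyS, hS], mem_insert_self y S, ?_, ?_⟩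
    · rw [coe_insert]
      refine hc.insert fun s hs hne => ?_
      exact (h1 s y (hall s hs)).symm
    · intro s hs hne
      rcases mem_insert.1 hs with rfl | hs
      · exact absurd rfl hne
      · exact hall s hs
  have := Nat.le_findGreatest (hPk y _ hPy).le hPy
  have h5 : h x + 1 ≤ h y := this
  omega

end Pool.Agent.T9h70.Box
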