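import Pool.Agent.T9h70.Box.Tree

set_option autoImplicit false

/-!
# The Gyárfás–Sumner conjecture for graphs of bounded boxicity

The boxicity of a graph is the least `d` such that it is the intersection graph of boxes in `ℝ ^ d` with
sides parallel to the axes. Every finite graph has finite boxicity. The graphs of boxicity at most `2`
are `χ`-bounded (Asplund and Grünbaum), those of boxicity at most `3` are not (Burling).

Theorem. For every `d` and every forest `F` on `m` vertices, every graph `G` of boxicity at most `d`
without induced subgraph `F` satisfies

`χ(G) ≤ (ω(G) (2 d (m ^ d ω(G) + 1) + 1)) ^ (m 4 ^ d)`.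

So for every forest the Gyárfás–Sumner conjecture holds in the class of the intersection graphs of boxes
in `ℝ ^ d`, with a bound which is polynomial in the clique number; a counterexample to the conjecture
must have unbounded boxicity, with an explicit bound. The graphs may contain arbitrarily large
half-graphs, matchings and co-matchings, and they may have arbitrarily large chromatic number although
their clique number is two (the graphs of Burling).

Proof. Order the vertices. An edge `x y`, `x < y`, has one of `4 ^ d` types: for every coordinate it is
recorded which of the two left end points is larger and which of the two right end points is larger. It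
is enough to colour the digraph `D` of the edges of one type. Call a coordinate sliding if the two
comparisons agree (say both end points of `y` are larger), and nested otherwise.

1. If `x → y → z` in `D`, then `x → z`, or `z` is separated from `x` in a sliding coordinate, that is,
   the left end point of `z` exceeds the right end point of `x`. If `z` is separated from `y` and
   `x → y`, then `z` is separated from `x`.
2. Let `D_0 = D`, and let `D_(j + 1)` consist of the `x → y` in `D` such that for some coordinate at
   least `N` vertices `z` with `y → z` in `D_j` are separated from `x` in this coordinate. If `y → z` is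
   in `D_j` and `x → y`, `x → z` are in `D`, then `x → z` is in `D_j`.
3. A colouring of `D_(j + 1)` with `C` colours gives one of `D_j` with `C k (2 d N + 1)` colours,
   where `k` is the clique number. In a class of the given colouring, the edges `y → z` for which, in
   some coordinate, fewer than `N` out-neighbours of `y` have a larger end point than `z` form a graph
   of outdegree less than `d N`. For the other edges `y → z` and for all `x → y` it follows from 1 and
   2 that `x → z` is in `D_j`. So a directed path in them which has `n` vertices gives a clique with
   `n` vertices, and the lengths of the paths give a colouring with `k` colours.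
4. If `D_m` has an edge `x → y`, then there is an induced complete `(m + 1)`-ary tree of depth `m`
   with root `y`: the many out-neighbours of a vertex which are separated from its parent are separated
   from all earlier ancestors by 1; by the perfection of interval graphs `m + 1` of them are pairwise
   not adjacent, hence separated in a nested coordinate, and then so are their descendants.
-/

namespace Pool.Agent.T9h70.Box.Final

open Pool.Agent.T9h70.Box

/-- `G` has boxicity at most `d`: it is the intersection graph of nonempty closed boxes
`[a v, b v]` in `ℝ ^ d` with sides parallel to the axes. -/
def BoxicityLE {V : Type} (d : ℕ) (G : SimpleGraph V) : Prop :=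
  ∃ a b : V → Fin d → ℝ, (∀ v, a v ≤ b v) ∧
    ∀ x y, x ≠ y → (G.Adj x y ↔ (Set.Icc (a x) (b x) ∩ Set.Icc (a y) (b y)).Nonempty)

theorem result (d m : ℕ) (F : SimpleGraph (Fin m)) (hF : F.IsAcyclic) (V : Type) [Finite V]
    (G : SimpleGraph V) (hG : BoxicityLE d G) (hFG : ¬ F.IsIndContained G) :
    G.chromaticNumber ≤
      ((G.cliqueNum * (2 * d * (m ^ d * G.cliqueNum + 1) + 1)) ^ (m * 4 ^ d) : ℕ) := by
  classical
  cases nonempty_fintype V
  obtain ⟨T, hT, ⟨ι⟩⟩ := Pool.Agent.H367R3.forest_in_tree F hF
  obtain ⟨a, b, hab, hadj⟩ := hG
  have hrep : Rep G a b := by
    refine ⟨fun v i => hab v i, fun x y hxy => ?_⟩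
    rw [hadj x y hxy]
    constructor
    · rintro ⟨z, ⟨h1, h2⟩, h3, h4⟩ i
      exact ⟨(h1 i).trans (h4 i), (h3 i).trans (h2 i)⟩
    · intro h
      refine ⟨fun i => max (a x i) (a y i), ⟨fun i => le_max_left _ _, fun i => ?_⟩,
        fun i => le_max_right _ _, fun i => ?_⟩
      · exact max_le (hab x i) (h i).2
      · exact max_le (h i).1 (hab y i)
  have h := tree_colorable hrep G.cliqueNum m (fun S hS => hS.card_le_cliqueNum) T hT (by
    rintro ⟨f⟩
    exact hFG ⟨ι.trans f⟩)
  have e : G.cliqueNum * (2 * d * (m ^ d * G.cliqueNum + 1) + 1) =
      G.cliqueNum * (2 * (d * (m ^ d * G.cliqueNum + 1)) + 1) := by ring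
  rw [e]
  exact h.chromaticNumber_le

end Pool.Agent.T9h70.Box.Final
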