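import Pool.Agent.T9h70.Box.Basic

set_option autoImplicit false

namespace Pool.Agent.T9h70.Box

open Finset

/-- the boxes of `x` and `y` intersect -/
def Inter {V : Type} {d : ℕ} (a b : V → Fin d → ℝ) (x y : V) : Prop :=
  ∀ i, a x i ≤ b y i ∧ a y i ≤ b x i

/-- `G` is the intersection graph of the boxes `[a, b]` -/
structure Rep {V : Type} {d : ℕ} (G : SimpleGraph V) (a b : V → Fin d → ℝ) : Prop where
  le : ∀ v i, a v i ≤ b v i
  adj : ∀ x y, x ≠ y → (G.Adj x y ↔ Inter a b x y)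

variable {V : Type} {d : ℕ} {G : SimpleGraph V} {a b : V → Fin d → ℝ}

/-- the edges of type `τ`, oriented by `e` -/
def DD (G : SimpleGraph V) (a b : V → Fin d → ℝ) (e : V → ℕ) (τ : Fin d → Bool × Bool)
    (x y : V) : Prop :=
  G.Adj x y ∧ e x < e y ∧ ∀ i, (a x i ≤ a y i ↔ (τ i).1 = true) ∧ (b x i ≤ b y i ↔ (τ i).2 = true)

/-- `z` is separated from `x` in the coordinate `i` -/
def SepI (a b : V → Fin d → ℝ) (τ : Fin d → Bool × Bool) (i : Fin d) (x z : V) : Prop :=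
  (τ i = (true, true) ∧ b x i < a z i) ∨ (τ i = (false, false) ∧ b z i < a x i)

def Nest (a b : V → Fin d → ℝ) (τ : Fin d → Bool × Bool) (y v : V) : Prop :=
  ∀ i, τ i = (true, false) → a y i ≤ a v i ∧ b v i ≤ b y i

variable {e : V → ℕ} {τ : Fin d → Bool × Bool}

theorem DD.trans (hG : Rep G a b) {x y z : V} (hxy : DD G a b e τ x y) (hyz : DD G a b e τ y z)
    (hs : ∀ i, ¬ SepI a b τ i x z) : DD G a b e τ x z := by
  have hlt := hxy.2.1.trans hyz.2.1
  have hne : x ≠ z := by rintro rfl; exact lt_irrefl _ hlt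
  have key : ∀ i, (a x i ≤ a z i ↔ (τ i).1 = true) ∧ (b x i ≤ b z i ↔ (τ i).2 = true) := by
    intro i
    obtain ⟨h1, h2⟩ := hxy.2.2 i
    obtain ⟨h3, h4⟩ := hyz.2.2 i
    constructor
    · by_cases h : (τ i).1 = true
      · exact ⟨fun _ => h, fun _ => (h1.2 h).trans (h3.2 h)⟩
      · refine ⟨fun h5 => ?_, fun h5 => absurd h5 h⟩
        have h6 : a y i < a x i := lt_of_not_ge fun h7 => h (h1.1 h7)
        have h7 : a z i < a y i := lt_of_not_ge fun h7 => h (h3.1 h7)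
        linarith
    · by_cases h : (τ i).2 = true
      · exact ⟨fun _ => h, fun _ => (h2.2 h).trans (h4.2 h)⟩
      · refine ⟨fun h5 => ?_, fun h5 => absurd h5 h⟩
        have h6 : b y i < b x i := lt_of_not_ge fun h7 => h (h2.1 h7)
        have h7 : b z i < b y i := lt_of_not_ge fun h7 => h (h4.1 h7)
        linarith
  refine ⟨(hG.adj x z hne).2 fun i => ?_, hlt, key⟩
  obtain ⟨h1, h2⟩ := key i
  have hx := hG.le x i
  have hz := hG.le z i
  have hsi := hs i
  unfold SepI at hsi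
  rcases hτ : τ i with ⟨u, v⟩
  rw [hτ] at h1 h2 hsi
  cases u <;> cases v <;> simp at h1 h2 hsi
  · exact ⟨hsi, by linarith⟩
  · exact ⟨by linarith, by linarith⟩
  · exact ⟨by linarith, by linarith⟩
  · exact ⟨by linarith, hsi⟩

theorem SepI.mono {x y z : V} {i : Fin d} (hxy : DD G a b e τ x y) (h : SepI a b τ i y z) :
    SepI a b τ i x z := by
  obtain ⟨h1, h2⟩ := hxy.2.2 i
  rcases h with ⟨hτ, h⟩ | ⟨hτ, h⟩
  · rw [hτ] at h2
    simp only [iff_true] at h2
    exact Or.inl ⟨hτ, h2.trans_lt h⟩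
  · rw [hτ] at h1
    simp only [Bool.false_eq_true, iff_false, not_le] at h1
    exact Or.inr ⟨hτ, h.trans h1⟩

theorem SepI.not_adj (hG : Rep G a b) {x z : V} {i : Fin d} (h : SepI a b τ i x z) :
    x ≠ z ∧ ¬ G.Adj x z := by
  have hne : x ≠ z := by
    rintro rfl
    have := hG.le x i
    rcases h with ⟨-, h⟩ | ⟨-, h⟩ <;> linarith
  refine ⟨hne, fun hadj => ?_⟩
  obtain ⟨h1, h2⟩ := (hG.adj x z hne).1 hadj i
  rcases h with ⟨-, h⟩ | ⟨-, h⟩ <;> linarith

theorem DD.nest {y z : V} (h : DD G a b e τ y z) : Nest a b τ y z := by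
  intro i hi
  obtain ⟨h1, h2⟩ := h.2.2 i
  rw [hi] at h1 h2
  simp only [iff_true, Bool.false_eq_true, iff_false, not_le] at h1 h2
  exact ⟨h1, h2.le⟩

theorem Nest.trans {x y z : V} (h1 : Nest a b τ x y) (h2 : Nest a b τ y z) : Nest a b τ x z :=
  fun i hi => ⟨(h1 i hi).1.trans (h2 i hi).1, (h2 i hi).2.trans (h1 i hi).2⟩

/-- nonadjacent out-neighbours of a vertex are separated in a nested coordinate -/
theorem siblings (hG : Rep G a b) {y z z' : V} (hz : DD G a b e τ y z) (hz' : DD G a b e τ y z')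
    (hne : z ≠ z') (hna : ¬ G.Adj z z') :
    ∃ i, τ i = (true, false) ∧ (b z i < a z' i ∨ b z' i < a z i) := by
  have hn : ¬ Inter a b z z' := fun h => hna ((hG.adj z z' hne).2 h)
  unfold Inter at hn
  push Not at hn
  obtain ⟨i, hi⟩ := hn
  have hi' : b z i < a z' i ∨ b z' i < a z i := by
    by_cases h : a z i ≤ b z' i
    · exact Or.inl (hi h)
    · exact Or.inr (not_le.1 h)
  refine ⟨i, ?_, hi'⟩
  have hyz := (hG.adj y z hz.1.ne).1 hz.1 i
  have hyz' := (hG.adj y z' hz'.1.ne).1 hz'.1 i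
  obtain ⟨h1, h2⟩ := hz.2.2 i
  obtain ⟨h3, h4⟩ := hz'.2.2 i
  have hy := hG.le y i
  rcases hτ : τ i with ⟨u, v⟩
  rw [hτ] at h1 h2 h3 h4
  cases u <;> cases v <;> simp at h1 h2 h3 h4 ⊢
  · rcases hi' with h | h <;> linarith
  · rcases hi' with h | h <;> linarith
  · rcases hi' with h | h <;> linarith

theorem nest_sep (hG : Rep G a b) {z z' v v' : V} {i : Fin d} (hτ : τ i = (true, false))
    (h : b z i < a z' i ∨ b z' i < a z i) (hv : Nest a b τ z v) (hv' : Nest a b τ z' v') :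
    v ≠ v' ∧ ¬ G.Adj v v' := by
  obtain ⟨h1, h2⟩ := hv i hτ
  obtain ⟨h3, h4⟩ := hv' i hτ
  have hne : v ≠ v' := by
    rintro rfl
    have := hG.le v i
    rcases h with h | h <;> linarith
  refine ⟨hne, fun hadj => ?_⟩
  obtain ⟨h5, h6⟩ := (hG.adj v v' hne).1 hadj i
  rcases h with h | h <;> linarith

/-! ### levels -/

/-- the edges with many levels of separated out-neighbours -/
def Lv (G : SimpleGraph V) (a b : V → Fin d → ℝ) (e : V → ℕ) (τ : Fin d → Bool × Bool) (N : ℕ) :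
    ℕ → V → V → Prop
  | 0, x, y => DD G a b e τ x y
  | j + 1, x, y => DD G a b e τ x y ∧ ∃ i, N ≤ {z | Lv G a b e τ N j y z ∧ SepI a b τ i x z}.ncard

variable {N : ℕ}

theorem Lv.dd : ∀ {j : ℕ} {x y : V}, Lv G a b e τ N j x y → DD G a b e τ x y
  | 0, _, _, h => h
  | _ + 1, _, _, h => h.1

theorem Lv.pred [Finite V] : ∀ {j : ℕ} {x y : V}, Lv G a b e τ N (j + 1) x y →
    Lv G a b e τ N j x y
  | 0, _, _, h => h.1
  | j + 1, _, _, ⟨h, i, hi⟩ => ⟨h, i, hi.trans (Set.ncard_le_ncard (fun _ hz =>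
      ⟨Lv.pred hz.1, hz.2⟩) (Set.toFinite _))⟩

theorem Lv.anti [Finite V] {x y z : V} (hxy : DD G a b e τ x y) (hxz : DD G a b e τ x z) :
    ∀ {j : ℕ}, Lv G a b e τ N j y z → Lv G a b e τ N j x z
  | 0, _ => hxz
  | j + 1, ⟨_, i, hi⟩ => ⟨hxz, i, hi.trans (Set.ncard_le_ncard (fun _ hw =>
      ⟨hw.1, hw.2.mono hxy⟩) (Set.toFinite _))⟩

/-- one step: a colouring of the level `j + 1` gives a colouring of the level `j` -/
theorem col_step [Fintype V] (hG : Rep G a b) (k : ℕ)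
    (hk : ∀ S : Finset V, G.IsClique (S : Set V) → S.card ≤ k) (hN : 0 < N) (j C : ℕ)
    (hC : Col (Lv G a b e τ N (j + 1)) C) :
    Col (Lv G a b e τ N j) (C * (k * (2 * (d * N) + 1))) := by
  classical
  obtain ⟨c, c1, c2⟩ := hC
  -- the remaining edges
  let D' : V → V → Prop := fun x y => Lv G a b e τ N j x y ∧ c x = c y
  have hD' : ∀ x y, D' x y → ¬ Lv G a b e τ N (j + 1) x y := fun x y h h' => c2 x y h' h.2
  let ξ : Fin d → V → ℝ := fun i z => if τ i = (true, true) then a z i else - b z i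
  have hξ : ∀ i x z z', SepI a b τ i x z → ξ i z ≤ ξ i z' → SepI a b τ i x z' := by
    intro i x z z' h hle
    simp only [ξ] at hle
    rcases h with ⟨hτ, h⟩ | ⟨hτ, h⟩
    · rw [if_pos hτ, if_pos hτ] at hle
      exact Or.inl ⟨hτ, h.trans_le hle⟩
    · have hτ' : τ i ≠ (true, true) := by rw [hτ]; simp
      rw [if_neg hτ', if_neg hτ'] at hle
      exact Or.inr ⟨hτ, by linarith⟩
  let ExI : Fin d → V → V → Prop := fun i y z => Lv G a b e τ N j y z ∧
    {z' | Lv G a b e τ N j y z' ∧ ξ i z ≤ ξ i z'}.ncard < N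
  let Ex : V → V → Prop := fun y z => ∃ i, ExI i y z
  let H : V → V → Prop := fun y z => D' y z ∧ ¬ Ex y z
  have hEx : Col Ex (2 * (d * N) + 1) := by
    refine col_outdeg Ex ?_ (d * N) ?_
    · rintro v ⟨i, h, -⟩
      exact lt_irrefl _ h.dd.2.1
    · intro y
      have h1 : {z | Ex y z} = ⋃ i ∈ (univ : Finset (Fin d)), {z | ExI i y z} := by
        ext z; simp [Ex]
      rw [h1]
      refine (Finset.set_ncard_biUnion_le _ _).trans ?_
      calc ∑ i : Fin d, {z | ExI i y z}.ncard ≤ ∑ _i : Fin d, N := by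
            refine sum_le_sum fun i _ => ?_
            exact (few_top {z | Lv G a b e τ N j y z} (Set.toFinite _) (ξ i) N hN).le
        _ = d * N := by simp
  have hH : Col H k := by
    refine col_height G k hk e D' H (fun x y h => h.1.dd.1) (fun x y h => h.1.dd.2.1)
      (fun x y h => h.1) ?_
    intro x y z hxy hyz
    have hns : ∀ i, ¬ SepI a b τ i x z := by
      intro i hs
      refine hD' x y hxy ⟨hxy.1.dd, i, ?_⟩
      have h2 : N ≤ {z' | Lv G a b e τ N j y z' ∧ ξ i z ≤ ξ i z'}.ncard := by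
        by_contra hcon
        exact hyz.2 ⟨i, hyz.1.1, not_le.1 hcon⟩
      exact h2.trans (Set.ncard_le_ncard (fun w hw => ⟨hw.1, hξ i x z w hs hw.2⟩)
        (Set.toFinite _))
    have h3 := DD.trans hG hxy.1.dd hyz.1.1.dd hns
    exact ⟨hyz.1.1.anti hxy.1.dd h3, hxy.2.trans hyz.1.2⟩
  have hc : Col (fun x y => c x ≠ c y) C := ⟨c, c1, fun x y h => h⟩
  refine (hc.prod (hH.prod hEx)).mono ?_ le_rfl
  intro x y hxy
  by_cases h1 : c x = c y
  · right
    by_cases h2 : Ex x y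
    · exact Or.inr h2
    · exact Or.inl ⟨⟨hxy, h1⟩, h2⟩
  · exact Or.inl h1

theorem col_levels [Fintype V] (hG : Rep G a b) (k : ℕ)
    (hk : ∀ S : Finset V, G.IsClique (S : Set V) → S.card ≤ k) (hN : 0 < N) (r : ℕ)
    (hr : ∀ x y, ¬ Lv G a b e τ N r x y) :
    Col (DD G a b e τ) ((k * (2 * (d * N) + 1)) ^ r) := by
  have h : ∀ j, j ≤ r → Col (Lv G a b e τ N (r - j)) ((k * (2 * (d * N) + 1)) ^ j) := by
    intro j
    induction j with
    | zero =>
      intro _
      exact ⟨fun _ => 0, fun _ => by simp, fun x y hxy => absurd hxy (hr x y)⟩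
    | succ j ih =>
      intro hj
      have h1 := ih (by omega)
      rw [show r - j = (r - (j + 1)) + 1 by omega] at h1
      have h2 := col_step hG k hk hN _ _ h1
      rwa [← pow_succ] at h2
  have h1 := h r le_rfl
  rwa [Nat.sub_self] at h1

end Pool.Agent.T9h70.Box
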