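import Pool.Agent.T9h70.Box.Levels
import Pool.Agent.N471.EL.Main

set_option autoImplicit false

namespace Pool.Agent.T9h70.Box

open Finset

variable {V : Type} {d : ℕ} {G : SimpleGraph V} {a b : V → Fin d → ℝ}

/-! ### many intervals are pairwise disjoint or pairwise intersecting -/

theorem one_dim (l r : V → ℝ) (hlr : ∀ v, l v ≤ r v) (m : ℕ) : ∀ (q : ℕ) (Z : Finset V),
    q * m < Z.card →
    (∃ S ⊆ Z, S.card = q + 1 ∧ ∀ x ∈ S, ∀ y ∈ S, x ≠ y → r x < l y ∨ r y < l x) ∨
    (∃ S ⊆ Z, m < S.card ∧ ∀ x ∈ S, ∀ y ∈ S, l x ≤ r y ∧ l y ≤ r x) := by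
  classical
  intro q
  induction q with
  | zero =>
    intro Z hZ
    obtain ⟨z, hz⟩ := card_pos.1 (lt_of_le_of_lt (Nat.zero_le _) hZ)
    left
    refine ⟨{z}, by simpa using hz, by simp, ?_⟩
    intro x hx y hy hxy
    rw [mem_singleton] at hx hy
    exact absurd (hx.trans hy.symm) hxy
  | succ q ih =>
    intro Z hZ
    have hne : Z.Nonempty := card_pos.1 (lt_of_le_of_lt (Nat.zero_le _) hZ)
    obtain ⟨z0, hz0, hmin⟩ := exists_min_image Z r hne
    by_cases hA : m < (Z.filter (fun z => l z ≤ r z0)).card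
    · right
      refine ⟨_, filter_subset _ _, hA, ?_⟩
      intro x hx y hy
      rw [mem_filter] at hx hy
      exact ⟨hx.2.trans (hmin y hy.1), hy.2.trans (hmin x hx.1)⟩
    · have hc : q * m < (Z.filter (fun z => ¬ l z ≤ r z0)).card := by
        have := card_filter_add_card_filter_not (s := Z) (fun z => l z ≤ r z0)
        rw [Nat.add_mul, one_mul] at hZ
        omega
      rcases ih _ hc with ⟨S, hSZ, hS, hdis⟩ | ⟨S, hSZ, hS, hint⟩
      · left
        have hz0S : z0 ∉ S := fun h => (mem_filter.1 (hSZ h)).2 (hlr z0)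
        refine ⟨insert z0 S, ?_, by rw [card_insert_of_notMem hz0S, hS], ?_⟩
        · intro x hx
          rcases mem_insert.1 hx with rfl | hx
          · exact hz0
          · exact (mem_filter.1 (hSZ hx)).1
        · intro x hx y hy hxy
          rcases mem_insert.1 hx with h1 | h1 <;> rcases mem_insert.1 hy with h2 | h2
          · exact absurd (h1.trans h2.symm) hxy
          · rw [h1]
            exact Or.inl (not_le.1 (mem_filter.1 (hSZ h2)).2)
          · rw [h2]
            exact Or.inr (not_le.1 (mem_filter.1 (hSZ h1)).2)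
          · exact hdis x h1 y h2 hxy
      · right
        exact ⟨S, hSZ.trans (filter_subset _ _), hS, hint⟩

theorem many_dim (hab : ∀ v i, a v i ≤ b v i) (k q : ℕ) (I : Finset (Fin d)) :
    ∀ Z : Finset V, q ^ I.card * k < Z.card →
    (∃ S ⊆ Z, S.card = q + 1 ∧ ∀ x ∈ S, ∀ y ∈ S, x ≠ y → ∃ i, b x i < a y i ∨ b y i < a x i) ∨
    (∃ S ⊆ Z, k < S.card ∧ ∀ x ∈ S, ∀ y ∈ S, ∀ i ∈ I, a x i ≤ b y i ∧ a y i ≤ b x i) := by
  classical
  induction I using Finset.induction_on with
  | empty =>
    intro Z hZ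
    right
    exact ⟨Z, subset_rfl, by simpa using hZ, by simp⟩
  | insert i I hi ih =>
    intro Z hZ
    rw [card_insert_of_notMem hi, pow_succ, mul_right_comm, mul_comm] at hZ
    rcases one_dim (fun v => a v i) (fun v => b v i) (fun v => hab v i) _ q Z hZ with
      ⟨S, hSZ, hS, hdis⟩ | ⟨S, hSZ, hS, hint⟩
    · left
      exact ⟨S, hSZ, hS, fun x hx y hy hxy => ⟨i, hdis x hx y hy hxy⟩⟩
    · rcases ih S hS with ⟨S', hS', h1, h2⟩ | ⟨S', hS', h1, h2⟩
      · exact Or.inl ⟨S', hS'.trans hSZ, h1, h2⟩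
      · right
        refine ⟨S', hS'.trans hSZ, h1, ?_⟩
        intro x hx y hy j hj
        rcases mem_insert.1 hj with rfl | hj
        · exact hint x (hS' hx) y (hS' hy)
        · exact h2 x hx y hy j hj

theorem many_indep (hG : Rep G a b) (k q : ℕ)
    (hk : ∀ S : Finset V, G.IsClique (S : Set V) → S.card ≤ k) (Z : Finset V)
    (hZ : q ^ d * k < Z.card) :
    ∃ g : Fin (q + 1) → V, Function.Injective g ∧ (∀ c, g c ∈ Z) ∧
      ∀ c c', c ≠ c' → ¬ G.Adj (g c) (g c') := by
  classical
  rcases many_dim hG.le k q univ Z (by simpa using hZ) with ⟨S, hSZ, hS, hdis⟩ | ⟨S, hSZ, hS, hint⟩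
  · let φ := S.equivFinOfCardEq hS
    refine ⟨fun c => (φ.symm c : V), fun c c' h => φ.symm.injective (Subtype.ext h),
      fun c => hSZ (φ.symm c).2, fun c c' hcc hadj => ?_⟩
    have hne : (φ.symm c : V) ≠ (φ.symm c' : V) := fun h => hcc (φ.symm.injective (Subtype.ext h))
    obtain ⟨i, hi⟩ := hdis _ (φ.symm c).2 _ (φ.symm c').2 hne
    obtain ⟨h1, h2⟩ := (hG.adj _ _ hne).1 hadj i
    rcases hi with h | h <;> linarith
  · exfalso
    have := hk S (fun x hx y hy hxy => (hG.adj x y hxy).2 fun i => hint x hx y hy i (mem_univ i))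
    omega

/-! ### trees of lists -/

/-- `l` and `l'` are adjacent in the tree of lists -/
def TA {p : ℕ} (l l' : List (Fin p)) : Prop := (∃ c, l' = l ++ [c]) ∨ (∃ c, l = l' ++ [c])

theorem TA_nil_nil {p : ℕ} : ¬ TA ([] : List (Fin p)) [] := by
  rintro (⟨c, h⟩ | ⟨c, h⟩) <;> simp at h

theorem TA_nil_cons {p : ℕ} (c : Fin p) (l : List (Fin p)) : TA [] (c :: l) ↔ l = [] := by
  unfold TA
  constructor
  · rintro (⟨c', h⟩ | ⟨c', h⟩)
    · simp at h; exact h.2
    · simp at h
  · rintro rfl
    exact Or.inl ⟨c, by simp⟩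

theorem TA_symm {p : ℕ} {l l' : List (Fin p)} : TA l l' ↔ TA l' l := by
  unfold TA
  exact or_comm

theorem TA_cons_cons {p : ℕ} (c c' : Fin p) (l l' : List (Fin p)) :
    TA (c :: l) (c' :: l') ↔ c = c' ∧ TA l l' := by
  unfold TA
  constructor
  · rintro (⟨e, h⟩ | ⟨e, h⟩)
    · simp only [List.cons_append, List.cons.injEq] at h
      exact ⟨h.1.symm, Or.inl ⟨e, h.2⟩⟩
    · simp only [List.cons_append, List.cons.injEq] at h
      exact ⟨h.1, Or.inr ⟨e, h.2⟩⟩
  · rintro ⟨rfl, ⟨e, h⟩ | ⟨e, h⟩⟩
    · exact Or.inl ⟨e, by rw [h]; simp⟩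
    · exact Or.inr ⟨e, by rw [h]; simp⟩

variable {e : V → ℕ} {τ : Fin d → Bool × Bool} {N : ℕ}

/-- an edge of level `r` gives an induced complete tree of depth `r` -/
theorem exists_tree [Fintype V] (hG : Rep G a b) (k q : ℕ)
    (hk : ∀ S : Finset V, G.IsClique (S : Set V) → S.card ≤ k) (hN : q ^ d * k < N) :
    ∀ (r : ℕ) (x y : V), Lv G a b e τ N r x y → ∃ f : List (Fin (q + 1)) → V, f [] = y ∧
      (∀ l, l ≠ [] → l.length ≤ r → ∃ i, SepI a b τ i x (f l)) ∧
      (∀ l, l.length ≤ r → Nest a b τ y (f l)) ∧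
      (∀ l l', l.length ≤ r → l'.length ≤ r →
        (f l = f l' → l = l') ∧ (G.Adj (f l) (f l') ↔ TA l l')) := by
  classical
  intro r
  induction r with
  | zero =>
    intro x y _
    have h0 : ∀ l : List (Fin (q + 1)), l.length ≤ 0 → l = [] := fun l hl =>
      List.length_eq_zero_iff.1 (Nat.le_zero.1 hl)
    refine ⟨fun _ => y, rfl, fun l h1 h2 => absurd (h0 l h2) h1, fun l _ i _ => ⟨le_rfl, le_rfl⟩,
      fun l l' h1 h2 => ⟨fun _ => (h0 l h1).trans (h0 l' h2).symm, ?_⟩⟩
    rw [h0 l h1, h0 l' h2]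
    exact ⟨fun h => absurd h (G.irrefl), fun h => absurd h TA_nil_nil⟩
  | succ r ih =>
    rintro x y ⟨hxy, i0, hi0⟩
    set Z : Set V := {z | Lv G a b e τ N r y z ∧ SepI a b τ i0 x z} with hZ
    have hZc : q ^ d * k < Z.toFinset.card := by
      rw [← Set.ncard_eq_toFinset_card']
      omega
    obtain ⟨g, g1, g2, g3⟩ := many_indep hG k q hk Z.toFinset hZc
    have g2' : ∀ c, Lv G a b e τ N r y (g c) ∧ SepI a b τ i0 x (g c) := fun c => by
      have := g2 c
      rwa [Set.mem_toFinset] at this
    have hch := fun c => ih y (g c) (g2' c).1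
    choose f f1 f2 f3 f4 using hch
    have hsepy : ∀ c l, l ≠ [] → l.length ≤ r → y ≠ f c l ∧ ¬ G.Adj y (f c l) := by
      intro c l h1 h2
      obtain ⟨i, hi⟩ := f2 c l h1 h2
      exact hi.not_adj hG
    have hcross : ∀ c c' l l', c ≠ c' → l.length ≤ r → l'.length ≤ r →
        f c l ≠ f c' l' ∧ ¬ G.Adj (f c l) (f c' l') := by
      intro c c' l l' hcc h1 h2
      obtain ⟨i, hi, hs⟩ := siblings hG (g2' c).1.dd (g2' c').1.dd (fun h => hcc (g1 h))
        (g3 c c' hcc)
      exact nest_sep hG hi hs (f3 c l h1) (f3 c' l' h2)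
    refine ⟨fun l => match l with
      | [] => y
      | c :: l => f c l, rfl, ?_, ?_, ?_⟩
    · intro l h1 h2
      rcases l with _ | ⟨c, l⟩
      · exact absurd rfl h1
      · simp only
        rw [List.length_cons] at h2
        by_cases hl : l = []
        · subst hl
          rw [f1 c]
          exact ⟨i0, (g2' c).2⟩
        · obtain ⟨i, hi⟩ := f2 c l hl (by omega)
          exact ⟨i, hi.mono hxy⟩
    · intro l h1
      rcases l with _ | ⟨c, l⟩
      · exact fun i _ => ⟨le_rfl, le_rfl⟩
      · simp only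
        rw [List.length_cons] at h1
        exact (g2' c).1.dd.nest.trans (f3 c l (by omega))
    · intro l l' h1 h2
      rcases l with _ | ⟨c, l⟩ <;> rcases l' with _ | ⟨c', l'⟩
      · exact ⟨fun _ => rfl, fun h => absurd h (G.irrefl), fun h => absurd h TA_nil_nil⟩
      · simp only
        rw [List.length_cons] at h2
        rw [TA_nil_cons]
        by_cases hl : l' = []
        · subst hl
          rw [f1 c']
          have hadj := (g2' c').1.dd.1
          exact ⟨fun h => absurd h hadj.ne, fun _ => rfl, fun _ => hadj⟩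
        · have := hsepy c' l' hl (by omega)
          exact ⟨fun h => absurd h this.1, fun h => absurd h this.2, fun h => absurd h hl⟩
      · simp only
        rw [List.length_cons] at h1
        rw [TA_symm, TA_nil_cons]
        by_cases hl : l = []
        · subst hl
          rw [f1 c]
          have hadj := (g2' c).1.dd.1
          exact ⟨fun h => absurd h.symm hadj.ne, fun _ => rfl, fun _ => hadj.symm⟩
        · have := hsepy c l hl (by omega)
          exact ⟨fun h => absurd h.symm this.1, fun h => absurd h.symm this.2,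
            fun h => absurd h hl⟩
      · simp only
        rw [List.length_cons] at h1 h2
        rw [TA_cons_cons]
        by_cases hcc : c = c'
        · subst hcc
          obtain ⟨h3, h4⟩ := f4 c l l' (by omega) (by omega)
          refine ⟨fun h => by rw [h3 h], ?_⟩
          rw [h4]
          exact ⟨fun h => ⟨rfl, h⟩, fun h => h.2⟩
        · have := hcross c c' l l' hcc (by omega) (by omega)
          exact ⟨fun h => absurd h this.1, fun h => absurd h this.2, fun h => absurd h.1 hcc⟩

/-! ### a tree in the tree of lists -/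

/-- the path to the vertex `j` of the tree with the parents `p` -/
def path (p : ℕ → ℕ) (M : ℕ) (j : ℕ) : List (Fin (M + 1)) :=
  if h : p j < j then path p M (p j) ++ [Fin.ofNat (M + 1) j] else []
termination_by j
decreasing_by exact h

theorem path_zero (p : ℕ → ℕ) (M : ℕ) : path p M 0 = [] := by
  rw [path, dif_neg (by omega)]

theorem path_pos (p : ℕ → ℕ) (M : ℕ) (hp : ∀ j, 1 ≤ j → p j < j) (j : ℕ) (hj : 1 ≤ j) :
    path p M j = path p M (p j) ++ [Fin.ofNat (M + 1) j] := by
  rw [path, dif_pos (hp j hj)]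

theorem path_length (p : ℕ → ℕ) (M : ℕ) (hp : ∀ j, 1 ≤ j → p j < j) : ∀ j,
    (path p M j).length ≤ j := by
  intro j
  induction j using Nat.strong_induction_on with
  | _ j ih =>
    rcases Nat.eq_zero_or_pos j with rfl | hj
    · rw [path_zero]; simp
    · rw [path_pos p M hp j hj, List.length_append, List.length_singleton]
      have := ih (p j) (hp j hj)
      have := hp j hj
      omega

theorem path_inj (p : ℕ → ℕ) (M : ℕ) (hp : ∀ j, 1 ≤ j → p j < j) (i j : ℕ) (hi : i ≤ M)
    (hj : j ≤ M) (h : path p M i = path p M j) : i = j := by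
  rcases Nat.eq_zero_or_pos i with rfl | hi0 <;> rcases Nat.eq_zero_or_pos j with rfl | hj0
  · rfl
  · rw [path_zero, path_pos p M hp j hj0] at h
    simp at h
  · rw [path_zero, path_pos p M hp i hi0] at h
    simp at h
  · rw [path_pos p M hp i hi0, path_pos p M hp j hj0] at h
    have h1 := (List.append_inj_right' h rfl)
    simp only [List.cons.injEq, and_true] at h1
    have h2 := congrArg Fin.val h1
    simp only [Fin.val_ofNat] at h2
    rwa [Nat.mod_eq_of_lt (by omega), Nat.mod_eq_of_lt (by omega)] at h2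

theorem path_TA (p : ℕ → ℕ) (M : ℕ) (hp : ∀ j, 1 ≤ j → p j < j) (i j : ℕ) (hij : i < j)
    (hj : j ≤ M) : TA (path p M i) (path p M j) ↔ p j = i := by
  have hpj := hp j (by omega)
  constructor
  · rintro (⟨c, h⟩ | ⟨c, h⟩)
    · rw [path_pos p M hp j (by omega)] at h
      have h1 := List.append_inj_left' h rfl
      exact path_inj p M hp _ _ (by omega) (by omega) h1
    · exfalso
      rcases Nat.eq_zero_or_pos i with rfl | hi0
      · rw [path_zero] at h
        simp at h
      · rw [path_pos p M hp i hi0] at h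
        have h1 := List.append_inj_left' h rfl
        have := path_inj p M hp _ _ (by have := hp i hi0; omega) (by omega) h1
        have := hp i hi0
        omega
  · rintro rfl
    exact Or.inl ⟨_, path_pos p M hp j (by omega)⟩

/-- the main theorem for trees -/
theorem tree_colorable [Fintype V] (hG : Rep G a b) (k M : ℕ)
    (hk : ∀ S : Finset V, G.IsClique (S : Set V) → S.card ≤ k) (T : SimpleGraph (Fin (M + 1)))
    (hT : T.IsTree) (hTG : ¬ T.IsIndContained G) :
    G.Colorable ((k * (2 * (d * (M ^ d * k + 1)) + 1)) ^ (M * 4 ^ d)) := by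
  classical
  obtain ⟨f, p, f1, f2, f3, f4⟩ := Pool.Agent.N471.EL.tree_enum M (Fin (M + 1)) T hT (by simp)
  set e : V → ℕ := fun v => (Fintype.equivFin V v : ℕ) with he
  have hcol : ∀ τ : Fin d → Bool × Bool,
      Col (DD G a b e τ) ((k * (2 * (d * (M ^ d * k + 1)) + 1)) ^ M) := by
    intro τ
    refine col_levels hG k hk (Nat.succ_pos _) M ?_
    intro x y hxy
    obtain ⟨g, -, -, -, g4⟩ := exists_tree hG k M hk (Nat.lt_succ_self _) M x y hxy
    apply hTG
    refine ⟨⟨⟨fun v => g (path p M (f v)), fun u v huv => ?_⟩, fun {u v} => ?_⟩⟩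
    · have hlen : ∀ v, (path p M (f v)).length ≤ M := fun v =>
        (path_length p M f3 (f v)).trans (f2 v)
      exact f1 (path_inj p M f3 _ _ (f2 u) (f2 v) ((g4 _ _ (hlen u) (hlen v)).1 huv))
    · have hlen : ∀ v, (path p M (f v)).length ≤ M := fun v =>
        (path_length p M f3 (f v)).trans (f2 v)
      show G.Adj (g (path p M (f u))) (g (path p M (f v))) ↔ T.Adj u v
      rw [(g4 _ _ (hlen u) (hlen v)).2]
      rcases lt_trichotomy (f u) (f v) with h | h | h
      · rw [path_TA p M f3 _ _ h (f2 v), f4 u v h]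
      · have : u = v := f1 h
        subst this
        constructor
        · intro h'
          exfalso
          rcases h' with ⟨c, h'⟩ | ⟨c, h'⟩ <;>
          · have := congrArg List.length h'
            simp at this
        · intro h'
          exact absurd h' T.irrefl
      · rw [TA_symm, path_TA p M f3 _ _ h (f2 u), T.adj_comm, f4 v u h]
  choose c c1 c2 using hcol
  -- the product of the colourings
  set C := (k * (2 * (d * (M ^ d * k + 1)) + 1)) ^ M with hC
  have hcard : (k * (2 * (d * (M ^ d * k + 1)) + 1)) ^ (M * 4 ^ d) =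
      Fintype.card ((Fin d → Bool × Bool) → Fin C) := by
    simp [hC, pow_mul]
  rw [hcard]
  let κ : G.Coloring ((Fin d → Bool × Bool) → Fin C) :=
    SimpleGraph.Coloring.mk (fun v τ => ⟨c τ v, c1 τ v⟩) (by
      intro x y hxy heq
      have key : ∀ x y, G.Adj x y → e x < e y → (∀ τ, c τ x = c τ y) → False := by
        intro x y hxy hlt h
        let τ : Fin d → Bool × Bool := fun i => (decide (a x i ≤ a y i), decide (b x i ≤ b y i))
        refine c2 τ x y ⟨hxy, hlt, fun i => ?_⟩ (h τ)
        simp [τ]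
      have h1 : ∀ τ, c τ x = c τ y := fun τ => by
        have := congrFun heq τ
        simpa using this
      rcases lt_trichotomy (e x) (e y) with h | h | h
      · exact key x y hxy h h1
      · have : x = y := (Fintype.equivFin V).injective (Fin.ext h)
        exact hxy.ne this
      · exact key y x hxy.symm h fun τ => (h1 τ).symm)
  exact κ.colorable

end Pool.Agent.T9h70.Box
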